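import Mathlib
import Pool.Agent.Lib.helper15.Gur1

open Finset Pool.Agent.Lib.helper15.Gur1

namespace Pool.Agent.Results.MP_c7f7e8_an.NotGdelta

/-- c_00 -/
abbrev Y : Type := ℕ →₀ ℝ

/-- seminorms on c_00 (the extensions of the pseudonorms on V) -/
abbrev P : Type := Seminorm ℝ Y

/-- topology of pointwise convergence on the rational vectors V -/
noncomputable instance topP : TopologicalSpace P :=
  TopologicalSpace.induced
    (fun (μ : P) (v : ℕ →₀ ℚ) => μ (v.mapRange (fun q : ℚ => (q : ℝ)) Rat.cast_zero)) inferInstance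

/-- c_00 with the seminorm mu -/
def C (_μ : P) : Type := Y

noncomputable instance (μ : P) : SeminormedAddCommGroup (C μ) :=
  AddGroupSeminorm.toSeminormedAddCommGroup (E := Y) μ.toAddGroupSeminorm

noncomputable instance (μ : P) : NormedSpace ℝ (C μ) :=
  { (inferInstance : Module ℝ Y) with norm_smul_le := fun a v => (map_smul_eq_mul μ a v).le }

/-- X_mu, the (separated) completion -/
abbrev X (μ : P) : Type := UniformSpace.Completion (C μ)

def Pinf : Set P := {μ | ¬ FiniteDimensional ℝ (X μ)}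

def BB : Set P := {μ | μ ∈ Pinf ∧ ∀ v, μ v = 0 → v = 0}

variable {G : Type} [NormedAddCommGroup G] [NormedSpace ℝ G]

noncomputable def emb (μ : P) : Y →ₗ[ℝ] X μ :=
  (UniformSpace.Completion.toComplₗᵢ : C μ →ₗᵢ[ℝ] X μ).toLinearMap

lemma norm_emb (μ : P) (v : Y) : ‖emb μ v‖ = μ v :=
  (UniformSpace.Completion.toComplₗᵢ : C μ →ₗᵢ[ℝ] X μ).norm_map v

lemma dense_emb (μ : P) : DenseRange (emb μ) :=
  UniformSpace.Completion.denseRange_coe (α := C μ)

lemma Y_inf : ¬ FiniteDimensional ℝ Y := fun _ =>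
  not_finite_iff_infinite.2 (inferInstance : Infinite ℕ)
    (Module.Finite.finite_basis (Finsupp.basisSingleOne (R := ℝ) (ι := ℕ)))

lemma mem_BB {μ : P} (h : ∀ v, μ v = 0 → v = 0) : μ ∈ BB := by
  refine ⟨fun hf => Y_inf (FiniteDimensional.of_injective (emb μ) ?_), h⟩
  rw [injective_iff_map_eq_zero]
  exact fun v hv => h v (by rw [← norm_emb, hv, norm_zero])

lemma exists_T [TopologicalSpace.SeparableSpace G] [CompleteSpace G] (h : GurProp G) :
    ∃ T : Y →ₗ[ℝ] G, Function.Injective T ∧ DenseRange T := by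
  obtain ⟨s, hs, hd⟩ := TopologicalSpace.exists_countable_dense G
  obtain ⟨b, hb, hsp, hli⟩ := exists_linearIndependent ℝ s
  have hd2 : Dense (Submodule.span ℝ b : Set G) := hsp ▸ hd.mono Submodule.subset_span
  have hinf : b.Infinite := fun hf => not_fin h (by
    have := FiniteDimensional.span_of_finite ℝ hf
    have h2 : Submodule.span ℝ b = ⊤ := by
      rw [← (Submodule.span ℝ b).closed_of_finiteDimensional.submodule_topologicalClosure_eq]
      exact Submodule.dense_iff_topologicalClosure_eq_top.1 hd2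
    rw [h2] at this
    exact Submodule.topEquiv.finiteDimensional)
  have := (hs.mono hb).to_subtype
  have := hinf.to_subtype
  obtain ⟨e⟩ : Nonempty (ℕ ≃ b) := nonempty_equiv_of_countable
  refine ⟨Finsupp.linearCombination ℝ fun n => (e n : G), hli.comp e e.injective, ?_⟩
  have h3 : Set.range (fun n => (e n : G)) = b := by
    rw [show (fun n => (e n : G)) = Subtype.val ∘ e from rfl, e.surjective.range_comp]; simp
  rw [DenseRange, ← LinearMap.coe_range, Finsupp.range_linearCombination, h3]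
  exact hd2

variable (T : Y →ₗ[ℝ] G)

lemma one (hT : Function.Injective T) (Φ : Finset (Y →ₗ[ℝ] ℝ)) (F : Submodule ℝ Y)
    [FiniteDimensional ℝ F] : ∃ (u : Y) (f : Y →ₗ[ℝ] ℝ), (∀ φ ∈ Φ, φ u = 0) ∧
      (∃ D, ∀ v, |f v| ≤ D * ‖T v‖) ∧ (∀ v ∈ F, f v = 0) ∧ f u = 1 := by
  obtain ⟨u, hu, huF⟩ : ∃ u, (∀ φ ∈ Φ, φ u = 0) ∧ u ∉ F := by
    by_contra hc
    push Not at hc
    let L : Y →ₗ[ℝ] (Φ → ℝ) := LinearMap.pi fun φ => φ.1
    refine Y_inf ⟨Submodule.fg_of_fg_map_of_fg_inf_ker L (IsNoetherian.noetherian _) ?_⟩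
    have : ⊤ ⊓ LinearMap.ker L ≤ F := fun v hv => hc v fun φ hφ => congrFun hv.2 ⟨φ, hφ⟩
    exact (Submodule.fg_iff_finiteDimensional _).2 (Submodule.finiteDimensional_of_le this)
  have : IsClosed (F.map T : Set G) := (F.map T).closed_of_finiteDimensional
  have h1 : (F.map T).mkQ (T u) ≠ 0 := fun h0 => by
    obtain ⟨v, hv, hv2⟩ := (Submodule.Quotient.mk_eq_zero _).1 h0
    exact huF (hT hv2 ▸ hv)
  obtain ⟨g, hg⟩ := SeparatingDual.exists_eq_one (R := ℝ) h1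
  refine ⟨u, g.toLinearMap ∘ₗ (F.map T).mkQ ∘ₗ T, hu, ⟨‖g‖, fun v => ?_⟩, fun v hv => ?_, hg⟩
  · exact (g.le_opNorm _).trans (mul_le_mul_of_nonneg_left
      (Submodule.Quotient.norm_mk_le _ _) (norm_nonneg _))
  · have : (F.map T).mkQ (T v) = 0 := (Submodule.Quotient.mk_eq_zero _).2 ⟨v, hv, rfl⟩
    simp only [LinearMap.comp_apply, this, map_zero]

lemma block (hT : Function.Injective T) (Φ : Finset (Y →ₗ[ℝ] ℝ)) (F : Submodule ℝ Y)
    [FiniteDimensional ℝ F] (j : ℕ) : ∃ (u : Fin j → Y) (f : Fin j → Y →ₗ[ℝ] ℝ),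
      (∀ i, ∀ φ ∈ Φ, φ (u i) = 0) ∧ (∀ i, ∃ D, ∀ v, |f i v| ≤ D * ‖T v‖) ∧
      (∀ i, ∀ v ∈ F, f i v = 0) ∧ ∀ i l, f i (u l) = if i = l then 1 else 0 := by
  classical
  induction j with
  | zero => exact ⟨Fin.elim0, Fin.elim0, by simp, by simp, by simp, by simp⟩
  | succ j ih =>
    obtain ⟨u, f, h1, h2, h3, h4⟩ := ih
    have := FiniteDimensional.span_of_finite ℝ (Set.finite_range u)
    obtain ⟨u0, f0, k1, k2, k3, k4⟩ := one T hT (Φ ∪ univ.image f)
      (F ⊔ Submodule.span ℝ (Set.range u))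
    refine ⟨Fin.cons u0 u, Fin.cons f0 f, ?_, ?_, ?_, ?_⟩
    · exact Fin.cases (fun φ hφ => k1 φ (mem_union_left _ hφ)) h1
    · exact Fin.cases k2 h2
    · exact Fin.cases (fun v hv => k3 v (Submodule.mem_sup_left hv)) h3
    · refine Fin.cases (Fin.cases (by simpa using k4) fun l => ?_)
        fun i => Fin.cases ?_ fun l => by simpa using h4 i l
      · simpa [(Fin.succ_ne_zero l).symm] using
          k3 _ (Submodule.mem_sup_right (Submodule.subset_span ⟨l, rfl⟩))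
      · simpa using k1 (f i) (mem_union_right _ (mem_image_of_mem _ (mem_univ i)))

def Eqv (ν : P) : Prop := ∃ D, 0 ≤ D ∧ (∀ v, ν v ≤ D * ‖T v‖) ∧ ∀ v, ‖T v‖ ≤ D * ν v

noncomputable def FF (m : ℕ) : Submodule ℝ Y := Finsupp.supported ℝ ℝ (Set.Iio m)

instance (m : ℕ) : FiniteDimensional ℝ (FF m) := by
  unfold FF
  rw [Finsupp.supported_eq_span_single]
  exact FiniteDimensional.span_of_finite ℝ ((Set.finite_Iio m).image _)

lemma FF_mono {m n : ℕ} (h : m ≤ n) : FF m ≤ FF n :=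
  Finsupp.supported_mono (Set.Iio_subset_Iio h)

lemma mem_FF (v : Y) : v ∈ FF (v.support.sup id + 1) := fun _ hx =>
  Nat.lt_succ_of_le (le_sup (f := id) hx)

lemma FF_fin (s : Finset Y) : ∃ m, ∀ v ∈ s, v ∈ FF m :=
  ⟨s.sup fun v => v.support.sup id + 1, fun v hv =>
    FF_mono (le_sup (f := fun v : Y => v.support.sup id + 1) hv) (mem_FF v)⟩

lemma nbhd {U : Set P} (hU : IsOpen U) {ν : P} (hν : ν ∈ U) :
    ∃ m, ∀ μ : P, (∀ v ∈ FF m, μ v = ν v) → μ ∈ U := by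
  classical
  obtain ⟨W, hW, rfl⟩ := isOpen_induced_iff.1 hU
  obtain ⟨I, u, h1, h2⟩ := isOpen_pi_iff.1 hW _ hν
  obtain ⟨m, hm⟩ := FF_fin (I.image fun v => v.mapRange (fun q : ℚ => (q : ℝ)) Rat.cast_zero)
  refine ⟨m, fun μ hμ => h2 fun v hv => ?_⟩
  simp only [hμ _ (hm _ (mem_image_of_mem _ hv))]
  exact (h1 v hv).2

lemma step (hT : Function.Injective T) {ν : P} (hν : Eqv T ν) (m j : ℕ)
    (Φ : Finset (Y →ₗ[ℝ] ℝ)) : ∃ (ν' : P) (u : Fin j → Y) (f : Fin j → Y →ₗ[ℝ] ℝ), Eqv T ν' ∧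
      (∀ v ∈ FF m, ν' v = ν v) ∧ (∀ v, ∃ w, (∀ φ ∈ Φ, φ w = φ v) ∧ ν w ≤ ν' v) ∧
      (∀ i, ν' (u i) ≤ 1) ∧ (∀ v, ∑ i, |f i v| ≤ ν' v) ∧ ∀ i, f i (u i) = 1 := by
  obtain ⟨u, f, h1, h2, h3, h4⟩ := block T hT Φ (FF m) j
  let Q : Y →ₗ[ℝ] Y := LinearMap.id - ∑ i, (f i).smulRight (u i)
  have hQ : ∀ v, Q v = v - ∑ i, f i v • u i := fun v => by simp [Q, LinearMap.sum_apply]
  let σ : P := Seminorm.of (fun v => ∑ i, |f i v|)
    (fun v w => by
      rw [← sum_add_distrib]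
      exact sum_le_sum fun i _ => by rw [map_add]; exact abs_add_le _ _)
    (fun a v => by simp [abs_mul, mul_sum])
  have hσ : ∀ v, σ v = ∑ i, |f i v| := fun _ => rfl
  have e : ∀ v, (ν.comp Q ⊔ σ) v = max (ν (Q v)) (σ v) := fun v => rfl
  have hP : ∀ v, ν (∑ i, f i v • u i) ≤ (∑ i, ν (u i)) * σ v := fun v => by
    refine (Finset.le_sum_of_subadditive ν (map_zero ν).le (map_add_le_add ν) _ _).trans ?_
    rw [sum_mul]
    refine sum_le_sum fun i _ => ?_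
    rw [map_smul_eq_mul, mul_comm]
    exact mul_le_mul_of_nonneg_left (single_le_sum (f := fun i => |f i v|)
      (fun _ _ => abs_nonneg _) (mem_univ i)) (apply_nonneg _ _)
  refine ⟨ν.comp Q ⊔ σ, u, f, ?_, fun v hv => ?_, fun v => ⟨Q v, fun φ hφ => ?_, ?_⟩,
    fun i => ?_, fun v => ?_, fun i => by simpa using h4 i i⟩
  · obtain ⟨D, hD, a1, a2⟩ := hν
    choose E hE using h2
    set S := ∑ i, ν (u i)
    have hS : 0 ≤ S := sum_nonneg fun _ _ => apply_nonneg _ _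
    set E' := ∑ i, |E i|
    have hE' : 0 ≤ E' := sum_nonneg fun _ _ => abs_nonneg _
    have b1 : ∀ v, σ v ≤ E' * ‖T v‖ := fun v => by
      rw [hσ, sum_mul]
      exact sum_le_sum fun i _ => (hE i v).trans (by gcongr; exact le_abs_self _)
    refine ⟨D + S * E' + E' + D * (1 + S), by positivity, fun v => ?_, fun v => ?_⟩
    · have c1 : ν (Q v) ≤ ν v + ν (∑ i, f i v • u i) := by rw [hQ]; exact map_sub_le_add ν _ _
      have c2 := (hP v).trans (mul_le_mul_of_nonneg_left (b1 v) hS)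
      have c3 := a1 v
      have c4 := b1 v
      have c5 : 0 ≤ D * (1 + S) * ‖T v‖ := by positivity
      have c6 : 0 ≤ E' * ‖T v‖ := by positivity
      have c7 : 0 ≤ (D + S * E') * ‖T v‖ := by positivity
      rw [e]
      exact max_le (by nlinarith) (by nlinarith)
    · have c1 : ν v ≤ ν (Q v) + ν (∑ i, f i v • u i) := by
        simpa [hQ] using map_add_le_add ν (Q v) (∑ i, f i v • u i)
      rw [e]
      set M := max (ν (Q v)) (σ v)
      have c2 : ν (Q v) ≤ M := le_max_left _ _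
      have c3 := (hP v).trans (mul_le_mul_of_nonneg_left (le_max_right (ν (Q v)) (σ v)) hS)
      have c4 : 0 ≤ M := (apply_nonneg _ _).trans c2
      have c5 : D * ν v ≤ D * ((1 + S) * M) := by gcongr; linarith
      have c6 : 0 ≤ (D + S * E' + E') * M := by positivity
      nlinarith [a2 v]
  · rw [e, hQ, hσ]
    simp [fun i => h3 i v hv]
  · simp [hQ, fun i => h1 i φ hφ]
  · rw [e]; exact le_max_left _ _
  · rw [e, hQ, hσ]
    simp [h4, apply_ite abs]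
  · rw [e]; exact le_max_right _ _

structure St where
  ν : P
  m : ℕ
  Φ : Finset (Y →ₗ[ℝ] ℝ)
  h : Eqv T ν

lemma core (hT : Function.Injective T) (U : ℕ → Set P) (hU : ∀ n, IsOpen (U n))
    (hm : ∀ ν, Eqv T ν → ∀ n, ν ∈ U n) : ∃ μ ∈ BB, (∀ n, μ ∈ U n) ∧
      ∀ j, ∃ (u : Fin j → Y) (f : Fin j → Y →ₗ[ℝ] ℝ),
        (∀ i, μ (u i) ≤ 1) ∧ (∀ v, ∑ i, |f i v| ≤ μ v) ∧ ∀ i, f i (u i) = 1 := by
  classical
  have hs : ∀ (k : ℕ) (s : St T), ∃ s' : St T, (∀ v ∈ FF s.m, s'.ν v = s.ν v) ∧ s.m < s'.m ∧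
      s.Φ ⊆ s'.Φ ∧ (∀ v, ∃ w, (∀ φ ∈ s.Φ, φ w = φ v) ∧ s.ν w ≤ s'.ν v) ∧
      (∀ μ : P, (∀ v ∈ FF s'.m, μ v = s'.ν v) → μ ∈ U k) ∧
      ∃ (u : Fin k → Y) (f : Fin k → Y →ₗ[ℝ] ℝ), (∀ i, u i ∈ FF s'.m) ∧ (∀ i, f i ∈ s'.Φ) ∧
        (∀ i, s'.ν (u i) ≤ 1) ∧ (∀ v, ∑ i, |f i v| ≤ s'.ν v) ∧ ∀ i, f i (u i) = 1 := by
    intro k s
    obtain ⟨ν', u, f, h1, h2, h3, h4, h5, h6⟩ := step T hT s.h s.m k s.Φ
    obtain ⟨m1, hm1⟩ := nbhd (hU k) (hm ν' h1 k)
    obtain ⟨m2, hm2⟩ := FF_fin (univ.image u)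
    refine ⟨⟨ν', s.m + m1 + m2 + 1, s.Φ ∪ univ.image f, h1⟩, h2, by dsimp only; omega,
      subset_union_left, h3, fun μ hμ => hm1 μ fun v hv => hμ v (FF_mono (by dsimp only; omega) hv),
      u, f, fun i => FF_mono (by dsimp only; omega) (hm2 _ (mem_image_of_mem _ (mem_univ i))),
      fun i => mem_union_right _ (mem_image_of_mem _ (mem_univ i)), h4, h5, h6⟩
  choose nx h1 h2 h3 h4 h5 h6 using hs
  let s : ℕ → St T := fun n => Nat.rec ⟨(normSeminorm ℝ G).comp T, 0, ∅, 1, zero_le_one,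
    fun v => by simp, fun v => by simp⟩ nx n
  have hs : ∀ k, s (k + 1) = nx k (s k) := fun _ => rfl
  have mm : StrictMono fun k => (s k).m := strictMono_nat_of_lt_succ fun k => h2 k (s k)
  have ag : ∀ k l, k ≤ l → ∀ v ∈ FF (s k).m, (s l).ν v = (s k).ν v := by
    intro k l hkl v hv
    induction l, hkl using Nat.le_induction with
    | base => rfl
    | succ l hkl ih => rw [← ih, hs]; exact h1 l (s l) v (FF_mono (mm.monotone hkl) hv)
  have ph : Monotone fun k => (s k).Φ := monotone_nat_of_le_succ fun k => h3 k (s k)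
  have wl : ∀ k l, k ≤ l → ∀ v, ∃ w, (∀ φ ∈ (s k).Φ, φ w = φ v) ∧ (s k).ν w ≤ (s l).ν v := by
    intro k l hkl
    induction l, hkl using Nat.le_induction with
    | base => exact fun v => ⟨v, fun _ _ => rfl, le_rfl⟩
    | succ l hkl ih =>
      intro v
      obtain ⟨w, a1, a2⟩ := h4 l (s l) v
      obtain ⟨w', b1, b2⟩ := ih w
      exact ⟨w', fun φ hφ => (b1 φ hφ).trans (a1 φ (ph hkl hφ)), b2.trans a2⟩
  have big : ∀ (v : Y) (l : ℕ), v.support.sup id + 1 ≤ l → v ∈ FF (s l).m := fun v l hl =>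
    FF_mono (hl.trans (mm.id_le l)) (mem_FF v)
  have lim : ∀ k, ∀ v ∈ FF (s k).m, (s (v.support.sup id + 1)).ν v = (s k).ν v := fun k v hv => by
    rw [← ag k (max k _) (le_max_left _ (v.support.sup id + 1)) v hv,
      ag _ _ (le_max_right k _) v (big v _ le_rfl)]
  let μ : P := Seminorm.of (fun v => (s (v.support.sup id + 1)).ν v)
    (fun v w => by
      have a := big v _ (le_max_left _ (w.support.sup id + 1))
      have b := big w _ (le_max_right (v.support.sup id + 1) _)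
      rw [lim _ v a, lim _ w b, lim _ _ (add_mem a b)]
      exact map_add_le_add _ _ _)
    (fun a v => by
      rw [lim _ _ (Submodule.smul_mem _ a (big v _ le_rfl))]
      exact map_smul_eq_mul _ _ _)
  have hμ : ∀ k, ∀ v ∈ FF (s k).m, μ v = (s k).ν v := lim
  refine ⟨μ, mem_BB fun v hv => ?_, fun n => h5 n (s n) μ (hμ (n + 1)), fun j => ?_⟩
  · obtain ⟨D, -, -, a⟩ := (s (v.support.sup id + 1)).h
    have := a v
    rw [← hμ _ v (big v _ le_rfl), hv, mul_zero, norm_le_zero_iff] at this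
    exact hT (this.trans (map_zero T).symm)
  · obtain ⟨u, f, a1, a2, a3, a4, a5⟩ := h6 j (s j)
    refine ⟨u, f, fun i => (hμ (j + 1) _ (a1 i)).trans_le (a3 i), fun v => ?_, a5⟩
    obtain ⟨w, b1, b2⟩ := wl (j + 1) _ (le_max_left _ (v.support.sup id + 1)) v
    rw [hμ _ v (big v _ (le_max_right (j + 1) _))]
    refine le_trans (le_of_eq ?_) ((a4 w).trans b2)
    exact sum_congr rfl fun i _ => by rw [b1 _ (a2 i)]

lemma main [TopologicalSpace.SeparableSpace G] [CompleteSpace G] (h : GurProp G) (I : Set P)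
    (hI : BB ⊆ I) : ¬ IsGδ {μ : I | Nonempty (X μ ≃L[ℝ] G)} := by
  intro hG
  obtain ⟨T, hT, hd⟩ := exists_T h
  obtain ⟨W, hW, e⟩ := hG.eq_iInter_nat
  choose U hU hUW using fun n => isOpen_induced_iff.1 (hW n)
  obtain ⟨μ, hμ, h1, h2⟩ := core T hT U hU fun ν ⟨D, _, a1, a2⟩ n => by
    have hB : ν ∈ BB := mem_BB fun v hv => by
      have := a2 v
      rw [hv, mul_zero, norm_le_zero_iff] at this
      exact hT (this.trans (map_zero T).symm)
    have : (⟨ν, hI hB⟩ : I) ∈ {μ : I | Nonempty (X μ ≃L[ℝ] G)} :=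
      ⟨(LinearEquiv.refl ℝ Y).extend (emb ν) T (dense_emb ν)
        ⟨D, fun v => by rw [norm_emb]; exact a2 v⟩ hd ⟨D, fun v => by rw [norm_emb]; exact a1 v⟩⟩
    rw [e, Set.mem_iInter] at this
    have h3 := this n
    rwa [← hUW n] at h3
  have : (⟨μ, hI hμ⟩ : I) ∈ {μ : I | Nonempty (X μ ≃L[ℝ] G)} := by
    rw [e, Set.mem_iInter]
    intro n
    rw [← hUW n]
    exact h1 n
  obtain ⟨Ψ⟩ : Nonempty (X μ ≃L[ℝ] G) := this
  set a := ‖(Ψ : X μ →L[ℝ] G)‖
  set b := ‖(Ψ.symm : G →L[ℝ] X μ)‖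
  have ha : 0 ≤ a := norm_nonneg _
  have hb : 0 ≤ b := norm_nonneg _
  obtain ⟨j, hj⟩ := noL1 h (1 + a + b) (by linarith)
  obtain ⟨u, f, k1, k2, k3⟩ := h2 j
  have hf : ∀ i, ∃ D, ∀ v, ‖f i v‖ ≤ D * ‖emb μ v‖ := fun i => ⟨1, fun v => by
    rw [norm_emb, one_mul]
    exact (single_le_sum (f := fun i => |f i v|) (fun _ _ => abs_nonneg _) (mem_univ i)).trans
      (k2 v)⟩
  have hg : ∀ x, ∑ i, |(f i).extendOfNorm (emb μ) x| ≤ ‖x‖ := fun x => by
    refine (dense_emb μ).induction_on x (isClosed_le (by fun_prop) continuous_norm) fun v => ?_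
    simp only [LinearMap.extendOfNorm_eq (dense_emb μ) (hf _), norm_emb]
    exact k2 v
  refine hj (fun i => Ψ (emb μ (u i)))
    (fun i => ((f i).extendOfNorm (emb μ)).toLinearMap ∘ₗ Ψ.symm.toLinearEquiv.toLinearMap)
    (fun i => ?_) (fun x => (hg (Ψ.symm x)).trans ?_) fun i => ?_
  · refine ((Ψ : X μ →L[ℝ] G).le_opNorm _).trans ?_
    rw [norm_emb]
    nlinarith [k1 i, apply_nonneg μ (u i)]
  · refine ((Ψ.symm : G →L[ℝ] X μ).le_opNorm _).trans ?_
    nlinarith [norm_nonneg x]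
  · change (f i).extendOfNorm (emb μ) (Ψ.symm (Ψ _)) = 1
    rw [Ψ.symm_apply_apply, LinearMap.extendOfNorm_eq (dense_emb μ) (hf _), k3]

theorem result (G : Type) [NormedAddCommGroup G] [NormedSpace ℝ G] [CompleteSpace G]
    [TopologicalSpace.SeparableSpace G] (h : GurProp G) :
    ¬ IsGδ {μ : Pinf | Nonempty (X μ ≃L[ℝ] G)} ∧ ¬ IsGδ {μ : BB | Nonempty (X μ ≃L[ℝ] G)} :=
  ⟨main h _ fun _ hμ => hμ.1, main h _ subset_rfl⟩

end Pool.Agent.Results.MP_c7f7e8_an.NotGdelta
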